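import Pool.Agent.P8H80.QN.Stm

/-! Project QN of helper80, package SND: the second order condition. -/

set_option autoImplicit false

namespace Pool.Agent.P8H41.QN

open Pool.Agent.P8H80.QN ComplexConjugate

theorem choose_phase (u v c : ℂ) (hc : c ≠ 0) : ∃ ζ : ℂ, ‖ζ‖ = 1 ∧ ∃ r : ℝ,
    conj ζ * u + ζ * v = r * c := by
  obtain ⟨g, hg⟩ : ∃ g : ℂ, g = v / c - conj (u / c) := ⟨_, rfl⟩
  obtain ⟨ζ, hζ, s, hs⟩ : ∃ ζ : ℂ, ‖ζ‖ = 1 ∧ ∃ s : ℝ, ζ * g = s := by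
    by_cases h : g = 0
    · exact ⟨1, by simp, 0, by rw [h]; simp⟩
    · have hn : (‖g‖ : ℂ) ≠ 0 := by exact_mod_cast norm_ne_zero_iff.2 h
      refine ⟨conj g / ‖g‖, ?_, ‖g‖, ?_⟩
      · rw [norm_div, Complex.norm_real, norm_norm, RCLike.norm_conj,
          div_self (norm_ne_zero_iff.2 h)]
      · rw [div_mul_eq_mul_div, Complex.conj_mul', div_eq_iff hn]
        ring
  refine ⟨ζ, hζ, (conj ζ * (u / c) + ζ * (v / c)).re, ?_⟩
  have him : (conj ζ * (u / c) + ζ * (v / c)).im = 0 := by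
    have h1 : conj ζ * (u / c) + ζ * (v / c) = ζ * g + (conj (ζ * conj (u / c)) + ζ * conj (u / c)) := by
      rw [hg, map_mul, Complex.conj_conj]; ring
    rw [h1, hs]
    generalize ζ * conj (u / c) = y
    simp
  have h2 : (((conj ζ * (u / c) + ζ * (v / c)).re : ℝ) : ℂ) = conj ζ * (u / c) + ζ * (v / c) := by
    apply Complex.ext
    · simp
    · rw [him]; simp
  rw [h2]
  field_simp

theorem snd : S_SND := by
  intro n B x hx hxB hmax hort w hw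
  obtain ⟨u, hu⟩ : ∃ u : ℂ, u = inner ℂ w (B x) := ⟨_, rfl⟩
  obtain ⟨v, hv⟩ : ∃ v : ℂ, v = inner ℂ x (B w) := ⟨_, rfl⟩
  obtain ⟨c, hc⟩ : ∃ c : ℂ, c = inner ℂ w (B w) := ⟨_, rfl⟩
  obtain ⟨Δ, hΔ⟩ : ∃ Δ : ℝ, Δ = ‖B w‖ ^ 2 - ‖B x‖ ^ 2 * ‖w‖ ^ 2 := ⟨_, rfl⟩
  have hwx : inner ℂ w x = (0 : ℂ) := by
    rw [← inner_conj_symm, hw, map_zero]
  have key : ∀ (a : ℝ) (ζ : ℂ), ‖ζ‖ = 1 →
      Δ * (a ^ 2 + ‖w‖ ^ 2) ≤ ‖(a : ℂ) * (conj ζ * u + ζ * v) + c‖ ^ 2 := by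
    intro a ζ hζ
    obtain ⟨z, hz⟩ : ∃ z : E n, z = (a : ℂ) • x + ζ • w := ⟨_, rfl⟩
    have h1 : ‖z‖ ^ 2 = a ^ 2 + ‖w‖ ^ 2 := by
      rw [hz, @norm_add_sq ℂ, inner_smul_left, inner_smul_right, hw, norm_smul, norm_smul, hζ, hx]
      simp
    have hBz : B z = (a : ℂ) • B x + ζ • B w := by
      rw [hz, map_add, map_smul, map_smul]
    have h2 : ‖B z‖ ^ 2 = a ^ 2 * ‖B x‖ ^ 2 + ‖B w‖ ^ 2 := by
      rw [hBz, @norm_add_sq ℂ, inner_smul_left, inner_smul_right, hort w hw, norm_smul, norm_smul,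
        hζ]
      simp [mul_pow]
    have hζc : conj ζ * ζ = 1 := by
      rw [Complex.conj_mul', hζ]; simp
    have h3 : inner ℂ z (B z) = (a : ℂ) * (conj ζ * u + ζ * v) + c := by
      rw [hBz, hz, inner_add_left, inner_add_right, inner_add_right]
      simp only [inner_smul_left, inner_smul_right, hxB, Complex.conj_ofReal, ← hu, ← hv, ← hc]
      linear_combination c * hζc
    have h4 := hmax z
    have h5 : ‖z‖ ^ 4 = (a ^ 2 + ‖w‖ ^ 2) ^ 2 := by rw [← h1]; ring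
    rw [h2, h5, h3, h1] at h4
    rw [hΔ]
    nlinarith
  have hfin : Δ ≤ 0 := by
    by_contra hcon
    push Not at hcon
    by_cases hw0 : w = 0
    · rw [hw0] at hΔ
      simp at hΔ
      linarith
    have hwn : 0 < ‖w‖ ^ 2 := by positivity
    by_cases hc0 : c = 0
    · have h1 := key 0 1 (by simp)
      rw [hc0] at h1
      simp at h1
      nlinarith
    · obtain ⟨ζ, hζ, r, hr⟩ := choose_phase u v c hc0
      by_cases hr0 : r = 0
      · have h1 := key (Real.sqrt (‖c‖ ^ 2 / Δ)) ζ hζ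
        rw [hr, hr0] at h1
        rw [Real.sq_sqrt (by positivity)] at h1
        simp only [Complex.ofReal_zero, zero_mul, mul_zero, zero_add] at h1
        have h2 : Δ * (‖c‖ ^ 2 / Δ + ‖w‖ ^ 2) = ‖c‖ ^ 2 + Δ * ‖w‖ ^ 2 := by
          field_simp
        rw [h2] at h1
        nlinarith
      · have h1 := key (-(1 / r)) ζ hζ
        have hr' : (r : ℂ) ≠ 0 := by exact_mod_cast hr0
        have h2 : ((-(1 / r) : ℝ) : ℂ) * (conj ζ * u + ζ * v) + c = 0 := by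
          rw [hr]; push_cast; field_simp; ring
        rw [h2] at h1
        simp only [norm_zero, ne_eq, OfNat.ofNat_ne_zero, not_false_eq_true, zero_pow] at h1
        have h3 : 0 < (-(1 / r)) ^ 2 + ‖w‖ ^ 2 := by positivity
        nlinarith
  have h1 : ‖B w‖ ^ 2 ≤ (‖B x‖ * ‖w‖) ^ 2 := by
    rw [mul_pow]; linarith
  exact (sq_le_sq₀ (norm_nonneg _) (by positivity)).1 h1

end Pool.Agent.P8H41.QN
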